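import Mathlib

/-!
# Spectral variation of commuting Hermitian tuples (MP_434093_an): statements of pieces

Aim: `C_K <= 2 * sqrt 3 * K` for all `K`.
-/

set_option autoImplicit false

namespace Pool.Agent.K6.H39.CT

open Finset

/-- The space `ℂ^n`. -/
abbrev E (n : ℕ) := EuclideanSpace ℂ (Fin n)

/-- **Piece BUMP**: the autocorrelation of a bump function and of its derivative. -/
def S_BUMP : Prop :=
  ∃ (ψ ψ' : ℝ → ℝ) (H : Type) (_ : NormedAddCommGroup H) (_ : InnerProductSpace ℝ H)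
    (e e' : ℝ → H), (∀ x, HasDerivAt ψ (ψ' x) x) ∧ ψ 0 = 1 ∧ (∀ x, 1 ≤ |x| → ψ x = 0) ∧
    (∀ a b, inner ℝ (e a) (e b) = ψ (a - b)) ∧ (∀ a b, inner ℝ (e' a) (e b) = ψ' (a - b)) ∧
    ∀ a, inner ℝ (e' a) (e' a) = 12

/-- **Piece PROD**: products of Gram matrices are Gram matrices. -/
def S_PROD : Prop :=
  ∀ (H : Type) [NormedAddCommGroup H] [InnerProductSpace ℝ H] (K n : ℕ)
    (x x' y : Fin K → Fin n → H),
    ∃ (Ω : Type) (_ : Fintype Ω) (P : Fin K → Fin n → Ω → ℝ) (Q : Fin n → Ω → ℝ),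
      (∀ J i k, ∑ ω, P J i ω * Q k ω =
        inner ℝ (x' J i) (y J k) * ∏ L ∈ univ.erase J, inner ℝ (x L i) (y L k)) ∧
      (∀ J i, ∑ ω, P J i ω ^ 2 =
        inner ℝ (x' J i) (x' J i) * ∏ L ∈ univ.erase J, inner ℝ (x L i) (x L i)) ∧
      ∀ k, ∑ ω, Q k ω ^ 2 = ∏ L, inner ℝ (y L k) (y L k)

/-- **Piece GRAM**: Schur multipliers given by Gram matrices, for columns of operators. -/
def S_GRAM : Prop :=
  ∀ (n K : ℕ) (D : Fin K → E n →ₗ[ℂ] E n) (M : ℝ), 0 ≤ M →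
    (∀ x, ∑ J, ‖D J x‖ ^ 2 ≤ M ^ 2 * ‖x‖ ^ 2) →
    ∀ (u v : OrthonormalBasis (Fin n) ℂ (E n)) (a b : Fin n → ℂ),
    ∑ i, ‖a i‖ ^ 2 = 1 → ∑ k, ‖b k‖ ^ 2 = 1 →
    ∀ (Ω : Type) [Fintype Ω] (P : Fin K → Fin n → Ω → ℝ) (Q : Fin n → Ω → ℝ) (C : ℝ), 0 ≤ C →
    (∀ i, ∑ J, ∑ ω, P J i ω ^ 2 ≤ C ^ 2) → (∀ k, ∑ ω, Q k ω ^ 2 ≤ 1) →
    ‖∑ J, ∑ i, ∑ k, (starRingEnd ℂ) (a i) * b k * ((∑ ω, P J i ω * Q k ω : ℝ) : ℂ) *
      inner ℂ (u i) (D J (v k))‖ ≤ M * C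

/-- **Piece HALL** (marriage theorem, complementary form). -/
def S_HALL : Prop :=
  ∀ (n : ℕ) (R : Fin n → Fin n → Prop), (¬ ∃ π : Equiv.Perm (Fin n), ∀ j, R j (π j)) →
    ∃ S T : Finset (Fin n), n < S.card + T.card ∧ ∀ i ∈ S, ∀ k ∈ T, ¬ R i k

/-- **Piece INT** (a unit vector in the intersection of two subspaces). -/
def S_INT : Prop :=
  ∀ (n : ℕ) (u v : OrthonormalBasis (Fin n) ℂ (E n)) (S T : Finset (Fin n)),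
    n < S.card + T.card → ∃ a b : Fin n → ℂ, (∀ i, i ∉ S → a i = 0) ∧ (∀ k, k ∉ T → b k = 0) ∧
      ∑ i, ‖a i‖ ^ 2 = 1 ∧ ∑ k, ‖b k‖ ^ 2 = 1 ∧
      ∑ i, ∑ k, (starRingEnd ℂ) (a i) * b k * inner ℂ (u i) (v k) = 1

end Pool.Agent.K6.H39.CT
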