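import Mathlib
import Pool.Agent.K6.H39.CT.Stm

/-!
# Piece BUMP: the autocorrelation of a bump function (helper71)
-/

set_option autoImplicit false

open MeasureTheory Set

namespace Pool.Agent.K6.H39.CT

namespace Bump

theorem max_sq (x : ℝ) : HasDerivAt (fun y : ℝ => (max 0 y) ^ 2) (2 * max 0 x) x := by
  rcases lt_trichotomy x 0 with hx | hx | hx
  · have h1 : (fun y : ℝ => (max 0 y) ^ 2) =ᶠ[nhds x] fun _ => (0 : ℝ) := by
      filter_upwards [Iio_mem_nhds hx] with y hy
      rw [max_eq_left (le_of_lt hy)]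
      norm_num
    rw [max_eq_left hx.le, mul_zero]
    exact (hasDerivAt_const x (0 : ℝ)).congr_of_eventuallyEq h1
  · subst hx
    rw [max_self, mul_zero, hasDerivAt_iff_isLittleO_nhds_zero]
    rw [Asymptotics.isLittleO_iff]
    intro c hc
    have h1 : Metric.ball (0 : ℝ) c ∈ nhds (0 : ℝ) := Metric.ball_mem_nhds _ hc
    filter_upwards [h1] with h hh
    rw [mem_ball_zero_iff, Real.norm_eq_abs] at hh
    have h2 : |max 0 h| ≤ |h| := by
      rcases le_total 0 h with h0 | h0
      · rw [max_eq_right h0]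
      · rw [max_eq_left h0, abs_zero]
        exact abs_nonneg _
    simp only [zero_add, max_self, smul_zero, sub_zero, Real.norm_eq_abs]
    norm_num
    calc max 0 h ^ 2 = |max 0 h| ^ 2 := (sq_abs _).symm
      _ ≤ |h| ^ 2 := by gcongr
      _ = |h| * |h| := by ring
      _ ≤ c * |h| := by
        gcongr
  · have h1 : (fun y : ℝ => (max 0 y) ^ 2) =ᶠ[nhds x] fun y => y ^ 2 := by
      filter_upwards [Ioi_mem_nhds hx] with y hy
      rw [max_eq_right (le_of_lt hy)]
    rw [max_eq_right hx.le]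
    have h2 : HasDerivAt (fun y : ℝ => y ^ 2) (2 * x) x := by
      simpa using hasDerivAt_pow 2 x
    exact h2.congr_of_eventuallyEq h1

/-- The constant. -/
noncomputable def c : ℝ := Real.sqrt (315 / 128)

theorem c_sq : c ^ 2 = 315 / 128 := Real.sq_sqrt (by norm_num)

/-- The bump function. -/
noncomputable def g (t : ℝ) : ℝ := c * (max 0 (1 - 4 * t ^ 2)) ^ 2

/-- Its derivative. -/
noncomputable def g' (t : ℝ) : ℝ := c * (-16 * t * max 0 (1 - 4 * t ^ 2))

theorem hasDeriv (t : ℝ) : HasDerivAt g (g' t) t := by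
  have h1 : HasDerivAt (fun t : ℝ => 1 - 4 * t ^ 2) (-(4 * (2 * t))) t := by
    have := (hasDerivAt_pow 2 t).const_mul 4
    have h2 := this.const_sub 1
    simpa using h2
  have h2 := ((max_sq (1 - 4 * t ^ 2)).comp t h1).const_mul c
  have h3 : c * (2 * max 0 (1 - 4 * t ^ 2) * -(4 * (2 * t))) = g' t := by
    unfold g'
    ring
  rw [h3] at h2
  exact h2

theorem cont_g : Continuous g := by
  unfold g
  fun_prop

theorem cont_g' : Continuous g' := by
  unfold g'
  fun_prop

theorem even (t : ℝ) : g (-t) = g t := by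
  unfold g
  rw [neg_sq]

theorem odd (t : ℝ) : g' (-t) = -g' t := by
  unfold g'
  rw [neg_sq]
  ring

theorem max_zero {t : ℝ} (h : 1 / 2 ≤ |t|) : max 0 (1 - 4 * t ^ 2) = 0 := by
  apply max_eq_left
  have h1 : (1 / 2 : ℝ) ^ 2 ≤ |t| ^ 2 := by gcongr
  rw [sq_abs] at h1
  linarith

theorem g_zero {t : ℝ} (h : 1 / 2 ≤ |t|) : g t = 0 := by
  unfold g
  rw [max_zero h]
  ring

theorem g'_zero {t : ℝ} (h : 1 / 2 ≤ |t|) : g' t = 0 := by
  unfold g'
  rw [max_zero h]
  ring

theorem cs (f : ℝ → ℝ) (hf : ∀ t, 1 / 2 ≤ |t| → f t = 0) (a : ℝ) :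
    HasCompactSupport fun t => f (t - a) := by
  refine HasCompactSupport.intro (isCompact_Icc (a := a - 1 / 2) (b := a + 1 / 2)) ?_
  intro t ht
  apply hf
  rw [mem_Icc, not_and_or, not_le, not_le] at ht
  rcases ht with ht | ht
  · rw [abs_of_neg (by linarith)]
    linarith
  · exact le_trans (by linarith) (le_abs_self _)

theorem cs_g : HasCompactSupport g := by
  have := cs g (fun t ht => g_zero ht) 0
  simpa using this

theorem deriv_g : deriv g = g' := funext fun t => (hasDeriv t).deriv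

theorem contDiff_g : ContDiff ℝ 1 g := by
  rw [contDiff_one_iff_deriv, deriv_g]
  exact ⟨fun t => (hasDeriv t).differentiableAt, cont_g'⟩

/-- The autocorrelation. -/
noncomputable def psi (x : ℝ) : ℝ := ∫ t, g t * g (x - t)

/-- Its derivative. -/
noncomputable def psi' (x : ℝ) : ℝ := ∫ t, g t * g' (x - t)

theorem psi_deriv (x : ℝ) : HasDerivAt psi (psi' x) x := by
  have h := cs_g.hasDerivAt_convolution_right (ContinuousLinearMap.mul ℝ ℝ)
    (cont_g.locallyIntegrable (μ := volume)) contDiff_g x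
  rw [deriv_g] at h
  exact h

theorem integral_poly (f p P : ℝ → ℝ) (h0 : ∀ t, 1 / 2 ≤ |t| → f t = 0)
    (h1 : ∀ t, |t| ≤ 1 / 2 → f t = p t) (hp : Continuous p)
    (hP : ∀ t, HasDerivAt P (p t) t) : ∫ t, f t = P (1 / 2) - P (-(1 / 2)) := by
  have h2 : ∫ t in (-(1 / 2) : ℝ)..(1 / 2), f t = ∫ t, f t := by
    apply intervalIntegral.integral_eq_integral_of_support_subset
    intro t ht
    rw [Function.mem_support] at ht
    have h3 : |t| < 1 / 2 := by
      by_contra h4
      exact ht (h0 t (not_lt.1 h4))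
    rw [abs_lt] at h3
    exact ⟨h3.1, h3.2.le⟩
  rw [← h2, ← intervalIntegral.integral_eq_sub_of_hasDerivAt (f := P) (f' := p)
    (fun t _ => hP t) (hp.intervalIntegrable _ _)]
  apply intervalIntegral.integral_congr
  intro t ht
  rw [uIcc_of_le (by norm_num)] at ht
  exact h1 t (abs_le.2 ⟨ht.1, ht.2⟩)

theorem max_eq {t : ℝ} (h : |t| ≤ 1 / 2) : max 0 (1 - 4 * t ^ 2) = 1 - 4 * t ^ 2 := by
  apply max_eq_right
  have h1 : |t| ^ 2 ≤ (1 / 2 : ℝ) ^ 2 := by gcongr
  rw [sq_abs] at h1
  linarith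

theorem int_g : ∫ t, g t * g t = 1 := by
  rw [integral_poly (fun t => g t * g t) (fun t => c ^ 2 * (1 - 4 * t ^ 2) ^ 4)
    (fun t => c ^ 2 * (t - 16 / 3 * t ^ 3 + 96 / 5 * t ^ 5 - 256 / 7 * t ^ 7 + 256 / 9 * t ^ 9))
    (fun t ht => by simp only [g_zero ht, mul_zero]) (fun t ht => by
      simp only [g, max_eq ht]
      ring) (by fun_prop) (fun t => by
      have h := (((((hasDerivAt_id t).sub ((hasDerivAt_pow 3 t).const_mul (16 / 3))).add
        ((hasDerivAt_pow 5 t).const_mul (96 / 5))).sub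
        ((hasDerivAt_pow 7 t).const_mul (256 / 7))).add
        ((hasDerivAt_pow 9 t).const_mul (256 / 9))).const_mul (c ^ 2)
      refine (h.congr_of_eventuallyEq (Filter.Eventually.of_forall fun y => ?_)).congr_deriv ?_
      · simp
      · push_cast
        ring)]
  rw [c_sq]
  norm_num

theorem int_g' : ∫ t, g' t * g' t = 12 := by
  rw [integral_poly (fun t => g' t * g' t) (fun t => c ^ 2 * (256 * t ^ 2 * (1 - 4 * t ^ 2) ^ 2))
    (fun t => c ^ 2 * (256 / 3 * t ^ 3 - 2048 / 5 * t ^ 5 + 4096 / 7 * t ^ 7))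
    (fun t ht => by simp only [g'_zero ht, mul_zero]) (fun t ht => by
      simp only [g', max_eq ht]
      ring) (by fun_prop) (fun t => by
      have h := ((((hasDerivAt_pow 3 t).const_mul (256 / 3)).sub
        ((hasDerivAt_pow 5 t).const_mul (2048 / 5))).add
        ((hasDerivAt_pow 7 t).const_mul (4096 / 7))).const_mul (c ^ 2)
      refine (h.congr_of_eventuallyEq (Filter.Eventually.of_forall fun y => ?_)).congr_deriv ?_
      · simp
      · push_cast
        ring)]
  rw [c_sq]
  norm_num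

theorem mem (f : ℝ → ℝ) (hc : Continuous f) (hf : ∀ t, 1 / 2 ≤ |t| → f t = 0) (a : ℝ) :
    MemLp (fun t => f (t - a)) 2 (volume : Measure ℝ) :=
  (hc.comp (continuous_id.sub continuous_const)).memLp_of_hasCompactSupport (cs f hf a)

theorem inner_toLp {f h : ℝ → ℝ} (hf : MemLp f 2 (volume : Measure ℝ))
    (hh : MemLp h 2 (volume : Measure ℝ)) :
    inner ℝ (hf.toLp f) (hh.toLp h) = ∫ t, f t * h t := by
  rw [L2.inner_def]
  apply integral_congr_ae
  filter_upwards [hf.coeFn_toLp, hh.coeFn_toLp] with t h1 h2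
  rw [h1, h2]
  simp [mul_comm]

end Bump

open Bump in
theorem t_BUMP : S_BUMP := by
  refine ⟨psi, psi', Lp ℝ 2 (volume : Measure ℝ), inferInstance, inferInstance,
    fun a => (mem g cont_g (fun t ht => g_zero ht) a).toLp _,
    fun a => (mem (fun t => -g' t) cont_g'.neg (fun t ht => by rw [g'_zero ht, neg_zero]) a).toLp _,
    psi_deriv, ?_, ?_, ?_, ?_, ?_⟩
  · unfold psi
    rw [← int_g]
    congr 1
    funext t
    rw [zero_sub, even]
  · intro x hx
    unfold psi
    have h : (fun t => g t * g (x - t)) = fun _ => 0 := by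
      funext t
      rcases le_or_gt (1 / 2) |t| with h | h
      · rw [g_zero h, zero_mul]
      · have h1 : 1 / 2 ≤ |x - t| := by
          have := abs_sub_abs_le_abs_sub x t
          linarith
        rw [g_zero h1, mul_zero]
    rw [h, integral_zero]
  · intro a b
    rw [inner_toLp]
    unfold psi
    rw [← integral_sub_right_eq_self (fun s => g s * g (a - b - s)) b]
    congr 1
    funext t
    have h : a - b - (t - b) = -(t - a) := by ring
    rw [h, even, mul_comm]
  · intro a b
    rw [inner_toLp]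
    unfold psi'
    rw [← integral_sub_right_eq_self (fun s => g s * g' (a - b - s)) b]
    congr 1
    funext t
    have h : a - b - (t - b) = -(t - a) := by ring
    rw [h, odd, mul_comm]
  · intro a
    rw [inner_toLp, ← int_g', ← integral_sub_right_eq_self (fun s => g' s * g' s) a]
    congr 1
    funext t
    ring

end Pool.Agent.K6.H39.CT
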