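import Mathlib
import Pool.Agent.K6.H39.CT.Stm

/-!
# Spectral variation of commuting tuples: the assembly
-/

set_option autoImplicit false

namespace Pool.Agent.K6.H39.CT

open Finset

/-- A vector of norm at least `ρ` has a coordinate of size at least `ρ / √K`. -/
lemma exists_coord {K : ℕ} {x : EuclideanSpace ℝ (Fin K)} {ρ : ℝ} (hρ : 0 < ρ) (h : ρ ≤ ‖x‖) :
    ∃ J, ρ ≤ Real.sqrt K * |x J| := by
  by_contra hc
  push Not at hc
  have h1 : ‖x‖ ^ 2 = ∑ J, (x J) ^ 2 := by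
    rw [EuclideanSpace.norm_sq_eq]
    exact Finset.sum_congr rfl fun J _ => by rw [Real.norm_eq_abs, sq_abs]
  rcases Nat.eq_zero_or_pos K with rfl | hK
  · have h2 : ‖x‖ ^ 2 = 0 := by rw [h1]; simp
    have h3 : ‖x‖ = 0 := by simpa using h2
    linarith
  have hK' : (0 : ℝ) < K := by exact_mod_cast hK
  have : Nonempty (Fin K) := ⟨⟨0, hK⟩⟩
  have h2 : ∀ J : Fin K, (K : ℝ) * (x J) ^ 2 < ρ ^ 2 := by
    intro J
    have h3 := hc J
    have h4 : (Real.sqrt K * |x J|) ^ 2 < ρ ^ 2 :=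
      pow_lt_pow_left₀ h3 (by positivity) two_ne_zero
    rwa [mul_pow, Real.sq_sqrt hK'.le, sq_abs] at h4
  have h3 : ∑ J : Fin K, (K : ℝ) * (x J) ^ 2 < ∑ _J : Fin K, ρ ^ 2 :=
    Finset.sum_lt_sum_of_nonempty Finset.univ_nonempty fun J _ => h2 J
  rw [← Finset.mul_sum, ← h1, Finset.sum_const, Finset.card_univ, Fintype.card_fin,
    nsmul_eq_mul] at h3
  have h4 : ‖x‖ ^ 2 < ρ ^ 2 := lt_of_mul_lt_mul_left h3 hK'.le
  have h5 : ρ ^ 2 ≤ ‖x‖ ^ 2 := pow_le_pow_left₀ hρ.le h 2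
  linarith

/-- **The main estimate.** -/
theorem core (hB : S_BUMP) (hP : S_PROD) (hG : S_GRAM) (hH : S_HALL) (hI : S_INT) {K n : ℕ}
    (A B : Fin K → E n →ₗ[ℂ] E n) (hsym : ∀ J, (A J).IsSymmetric)
    (u v : OrthonormalBasis (Fin n) ℂ (E n)) (α β : Fin n → EuclideanSpace ℝ (Fin K))
    (hu : ∀ J j, A J (u j) = ((α j J : ℝ) : ℂ) • u j)
    (hv : ∀ J j, B J (v j) = ((β j J : ℝ) : ℂ) • v j) (M : ℝ) (hM0 : 0 ≤ M)
    (hM : ∀ x, ∑ J, ‖(A J - B J) x‖ ^ 2 ≤ M ^ 2 * ‖x‖ ^ 2) :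
    ∃ π : Equiv.Perm (Fin n), ∀ j, ‖α j - β (π j)‖ ≤ 2 * Real.sqrt 3 * K * M := by
  classical
  obtain ⟨ψ, ψ', H, _, _, e, e', hψ, hψ0, hψ1, hee, hee', hn⟩ := hB
  by_contra hcon
  obtain ⟨S, T, hST, hR⟩ := hH n (fun i k => ‖α i - β k‖ ≤ 2 * Real.sqrt 3 * K * M) hcon
  obtain ⟨a, b, ha0, hb0, ha1, hb1, hab⟩ := hI n u v S T hST
  have hS : S.Nonempty := by
    rw [Finset.nonempty_iff_ne_empty]
    rintro rfl
    have := T.card_le_univ
    rw [Fintype.card_fin] at this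
    simp at hST
    omega
  have hT : T.Nonempty := by
    rw [Finset.nonempty_iff_ne_empty]
    rintro rfl
    have := S.card_le_univ
    rw [Fintype.card_fin] at this
    simp at hST
    omega
  obtain ⟨p₀, hp₀, hmin⟩ := Finset.exists_min_image (S ×ˢ T) (fun p => ‖α p.1 - β p.2‖)
    (hS.product hT)
  obtain ⟨ρ, hρ⟩ : ∃ ρ, ρ = ‖α p₀.1 - β p₀.2‖ := ⟨_, rfl⟩
  rw [Finset.mem_product] at hp₀
  have hdρ : 2 * Real.sqrt 3 * K * M < ρ := by
    rw [hρ]
    exact not_le.1 (hR _ hp₀.1 _ hp₀.2)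
  have hρ0 : 0 < ρ := lt_of_le_of_lt (by positivity) hdρ
  have hfar : ∀ i ∈ S, ∀ k ∈ T, ρ ≤ ‖α i - β k‖ := by
    intro i hi k hk
    rw [hρ]
    exact hmin (i, k) (Finset.mem_product.2 ⟨hi, hk⟩)
  -- the function of the scale
  let x : Fin n → Fin n → Fin K → ℝ := fun i k J => α i J - β k J
  let F : ℝ → ℂ := fun s => ∑ i, ∑ k, (starRingEnd ℂ) (a i) * b k * inner ℂ (u i) (v k) *
    ((∏ J, ψ (s * x i k J) : ℝ) : ℂ)
  let F' : ℝ → ℂ := fun s => ∑ i, ∑ k, (starRingEnd ℂ) (a i) * b k * inner ℂ (u i) (v k) *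
    ((∑ J, (∏ L ∈ univ.erase J, ψ (s * x i k L)) * (ψ' (s * x i k J) * x i k J) : ℝ) : ℂ)
  have hF : ∀ s, HasDerivAt F (F' s) s := by
    intro s
    refine HasDerivAt.fun_sum fun i _ => HasDerivAt.fun_sum fun k _ => ?_
    refine HasDerivAt.const_mul _ (HasDerivAt.ofReal_comp ?_)
    have h1 := HasDerivAt.fun_finsetProd (u := (univ : Finset (Fin K))) (x := s)
      (f := fun J s => ψ (s * x i k J)) (f' := fun J => ψ' (s * x i k J) * x i k J) (fun J _ => by
        have h2 : HasDerivAt (fun s : ℝ => s * x i k J) (x i k J) s := by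
          simpa using (hasDerivAt_id s).mul_const (x i k J)
        exact (hψ (s * x i k J)).comp s h2)
    simpa only [smul_eq_mul] using h1
  have hF' : ∀ s, ‖F' s‖ ≤ M * Real.sqrt (12 * K) := by
    intro s
    obtain ⟨Ω, _, P, Q, h1, h2, h3⟩ := hP H K n (fun L i => e (s * α i L))
      (fun J i => e' (s * α i J)) (fun L k => e (s * β k L))
    have h4 := hG n K (fun J => A J - B J) M hM0 hM u v a b ha1 hb1 Ω P Q
      (Real.sqrt (12 * K)) (Real.sqrt_nonneg _) (by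
        intro i
        rw [Real.sq_sqrt (by positivity)]
        refine le_of_eq ?_
        have h5 : ∀ J ∈ (univ : Finset (Fin K)), ∑ ω, P J i ω ^ 2 = 12 := by
          intro J _
          rw [h2, hn]
          simp only [hee, sub_self, hψ0, Finset.prod_const_one, mul_one]
        rw [Finset.sum_congr rfl h5, Finset.sum_const, Finset.card_univ, Fintype.card_fin,
          nsmul_eq_mul]
        ring) (by
        intro k
        rw [h3]
        simp only [hee, sub_self, hψ0, Finset.prod_const_one, le_refl])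
    refine le_trans (le_of_eq ?_) h4
    congr 1
    rw [Finset.sum_comm]
    refine Finset.sum_congr rfl fun i _ => ?_
    rw [Finset.sum_comm]
    refine Finset.sum_congr rfl fun k _ => ?_
    rw [Complex.ofReal_sum, Finset.mul_sum]
    refine Finset.sum_congr rfl fun J _ => ?_
    rw [h1, hee']
    have h6 : inner ℂ (u i) ((A J - B J) (v k)) = ((x i k J : ℝ) : ℂ) * inner ℂ (u i) (v k) := by
      rw [LinearMap.sub_apply, inner_sub_right, ← hsym J (u i) (v k), hu, hv, inner_smul_left,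
        inner_smul_right, Complex.conj_ofReal]
      simp only [x]
      push_cast
      ring
    rw [h6]
    simp only [hee, x]
    rw [← mul_sub]
    have h7 : ∀ L : Fin K, ψ (s * α i L - s * β k L) = ψ (s * (α i L - β k L)) := by
      intro L; rw [mul_sub]
    simp only [h7]
    push_cast
    ring
  have hF0 : F 0 = 1 := by
    simp only [F, zero_mul, hψ0, Finset.prod_const_one, Complex.ofReal_one, mul_one]
    exact hab
  obtain ⟨s₁, hs₁⟩ : ∃ s₁, s₁ = Real.sqrt K / ρ := ⟨_, rfl⟩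
  have hs0 : 0 ≤ s₁ := by rw [hs₁]; positivity
  have hF1 : F s₁ = 0 := by
    refine Finset.sum_eq_zero fun i _ => Finset.sum_eq_zero fun k _ => ?_
    by_cases hi : i ∈ S
    · by_cases hk : k ∈ T
      · obtain ⟨J, hJ⟩ := exists_coord hρ0 (hfar i hi k hk)
        have h1 : ψ (s₁ * x i k J) = 0 := by
          apply hψ1
          rw [abs_mul, abs_of_nonneg hs0, hs₁, div_mul_eq_mul_div, le_div_iff₀ hρ0, one_mul]
          exact hJ
        rw [Finset.prod_eq_zero (Finset.mem_univ J) h1, Complex.ofReal_zero, mul_zero]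
      · rw [hb0 k hk]; ring
    · rw [ha0 i hi, map_zero]; ring
  have hmv : ‖F s₁ - F 0‖ ≤ M * Real.sqrt (12 * K) * ‖s₁ - 0‖ :=
    Convex.norm_image_sub_le_of_norm_hasDerivWithin_le (s := Set.univ) (f' := F')
      (fun s _ => (hF s).hasDerivWithinAt) (fun s _ => hF' s) convex_univ (Set.mem_univ _)
      (Set.mem_univ _)
  rw [hF1, hF0, zero_sub, norm_neg, norm_one, sub_zero, Real.norm_of_nonneg hs0, hs₁,
    mul_div_assoc', le_div_iff₀ hρ0, one_mul] at hmv
  have h12 : Real.sqrt (12 * K) * Real.sqrt K = 2 * Real.sqrt 3 * K := by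
    have h1 : (12 : ℝ) * K = (2 ^ 2 * 3) * K := by norm_num
    rw [h1, Real.sqrt_mul (by positivity), Real.sqrt_mul (by positivity),
      Real.sqrt_sq (by norm_num), mul_assoc, Real.mul_self_sqrt (by positivity)]
  have h13 : M * Real.sqrt (12 * K) * Real.sqrt K = 2 * Real.sqrt 3 * K * M := by
    rw [mul_assoc, h12]; ring
  rw [h13] at hmv
  linarith

end Pool.Agent.K6.H39.CT
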