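import Pool.Agent.K6.H39.CT.Stm

/-!
# `S_GRAM` (written by helper58)

Schur multipliers given by Gram matrices, for columns of operators.
-/

set_option autoImplicit false

namespace Pool.Agent.K6.H39.CT

open Finset

namespace GRAM

theorem norm_sq_comb {n : ℕ} (u : OrthonormalBasis (Fin n) ℂ (E n)) (c : Fin n → ℂ) :
    ‖∑ i, c i • u i‖ ^ 2 = ∑ i, ‖c i‖ ^ 2 := by
  have h := u.orthonormal.inner_sum c c univ
  have h0 : inner ℂ (∑ i, c i • u i) (∑ i, c i • u i) = ((‖∑ i, c i • u i‖ : ℝ) : ℂ) ^ 2 :=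
    inner_self_eq_norm_sq_to_K _
  have h2 : ((‖∑ i, c i • u i‖ ^ 2 : ℝ) : ℂ) = ((∑ i, ‖c i‖ ^ 2 : ℝ) : ℂ) := by
    rw [Complex.ofReal_pow, ← h0, h]
    push_cast
    refine Finset.sum_congr rfl fun i _ => ?_
    rw [mul_comm, Complex.mul_conj, Complex.normSq_eq_norm_sq]
    push_cast
    rfl
  exact_mod_cast h2

end GRAM

open GRAM in
theorem t_GRAM : S_GRAM := by
  intro n K D M hM hD u v a b ha hb Ω _ P Q C hC hP hQ
  set X : Fin K → Ω → E n := fun J ω => ∑ i, (a i * (P J i ω : ℂ)) • u i with hX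
  set Y : Ω → E n := fun ω => ∑ k, (b k * (Q k ω : ℂ)) • v k with hY
  have hin : ∀ J ω, inner ℂ (X J ω) (D J (Y ω)) =
      ∑ i, ∑ k, (starRingEnd ℂ) (a i) * b k * ((P J i ω * Q k ω : ℝ) : ℂ) *
        inner ℂ (u i) (D J (v k)) := by
    intro J ω
    simp only [hX, hY]
    rw [sum_inner]
    refine Finset.sum_congr rfl fun i _ => ?_
    rw [map_sum, inner_sum]
    refine Finset.sum_congr rfl fun k _ => ?_
    rw [map_smul, inner_smul_left, inner_smul_right, map_mul, Complex.conj_ofReal]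
    push_cast
    ring
  have hsum : (∑ J, ∑ i, ∑ k, (starRingEnd ℂ) (a i) * b k *
      ((∑ ω, P J i ω * Q k ω : ℝ) : ℂ) * inner ℂ (u i) (D J (v k))) =
      ∑ p : Fin K × Ω, inner ℂ (X p.1 p.2) (D p.1 (Y p.2)) := by
    rw [Fintype.sum_prod_type]
    refine Finset.sum_congr rfl fun J _ => ?_
    simp only [hin]
    symm
    rw [Finset.sum_comm]
    refine Finset.sum_congr rfl fun i _ => ?_
    rw [Finset.sum_comm]
    refine Finset.sum_congr rfl fun k _ => ?_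
    push_cast
    rw [Finset.mul_sum, Finset.sum_mul]
  have hXs : ∑ p : Fin K × Ω, ‖X p.1 p.2‖ ^ 2 ≤ C ^ 2 := by
    have e1 : ∀ p : Fin K × Ω, ‖X p.1 p.2‖ ^ 2 = ∑ i, ‖a i‖ ^ 2 * P p.1 i p.2 ^ 2 := by
      intro p
      simp only [hX]
      rw [norm_sq_comb]
      refine Finset.sum_congr rfl fun i _ => ?_
      rw [norm_mul, Complex.norm_real, mul_pow, Real.norm_eq_abs, sq_abs]
    simp only [e1]
    rw [Finset.sum_comm]
    calc ∑ i, ∑ p : Fin K × Ω, ‖a i‖ ^ 2 * P p.1 i p.2 ^ 2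
        = ∑ i, ‖a i‖ ^ 2 * ∑ J, ∑ ω, P J i ω ^ 2 := by
          refine Finset.sum_congr rfl fun i _ => ?_
          rw [← Finset.mul_sum, Fintype.sum_prod_type]
      _ ≤ ∑ i, ‖a i‖ ^ 2 * C ^ 2 :=
          Finset.sum_le_sum fun i _ => mul_le_mul_of_nonneg_left (hP i) (by positivity)
      _ = C ^ 2 := by rw [← Finset.sum_mul, ha, one_mul]
  have hYs : ∑ ω, ‖Y ω‖ ^ 2 ≤ 1 := by
    have e1 : ∀ ω, ‖Y ω‖ ^ 2 = ∑ k, ‖b k‖ ^ 2 * Q k ω ^ 2 := by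
      intro ω
      simp only [hY]
      rw [norm_sq_comb]
      refine Finset.sum_congr rfl fun i _ => ?_
      rw [norm_mul, Complex.norm_real, mul_pow, Real.norm_eq_abs, sq_abs]
    simp only [e1]
    rw [Finset.sum_comm]
    calc ∑ k, ∑ ω, ‖b k‖ ^ 2 * Q k ω ^ 2
        = ∑ k, ‖b k‖ ^ 2 * ∑ ω, Q k ω ^ 2 := by
          refine Finset.sum_congr rfl fun i _ => ?_
          rw [← Finset.mul_sum]
      _ ≤ ∑ k, ‖b k‖ ^ 2 * 1 :=
          Finset.sum_le_sum fun i _ => mul_le_mul_of_nonneg_left (hQ i) (by positivity)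
      _ = 1 := by simp [hb]
  have hDs : ∑ p : Fin K × Ω, ‖D p.1 (Y p.2)‖ ^ 2 ≤ M ^ 2 := by
    rw [Fintype.sum_prod_type, Finset.sum_comm]
    calc ∑ ω, ∑ J, ‖D J (Y ω)‖ ^ 2 ≤ ∑ ω, M ^ 2 * ‖Y ω‖ ^ 2 :=
          Finset.sum_le_sum fun ω _ => hD (Y ω)
      _ = M ^ 2 * ∑ ω, ‖Y ω‖ ^ 2 := by rw [Finset.mul_sum]
      _ ≤ M ^ 2 * 1 := mul_le_mul_of_nonneg_left hYs (by positivity)
      _ = M ^ 2 := by ring
  rw [hsum]
  have h1 : ‖∑ p : Fin K × Ω, inner ℂ (X p.1 p.2) (D p.1 (Y p.2))‖ ≤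
      ∑ p : Fin K × Ω, ‖X p.1 p.2‖ * ‖D p.1 (Y p.2)‖ :=
    (norm_sum_le _ _).trans (Finset.sum_le_sum fun p _ => norm_inner_le_norm _ _)
  have h2 : (∑ p : Fin K × Ω, ‖X p.1 p.2‖ * ‖D p.1 (Y p.2)‖) ^ 2 ≤ (M * C) ^ 2 := by
    refine (Finset.sum_mul_sq_le_sq_mul_sq _ _ _).trans ?_
    calc (∑ p : Fin K × Ω, ‖X p.1 p.2‖ ^ 2) * ∑ p : Fin K × Ω, ‖D p.1 (Y p.2)‖ ^ 2
        ≤ C ^ 2 * M ^ 2 := mul_le_mul hXs hDs
          (Finset.sum_nonneg fun _ _ => by positivity) (by positivity)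
      _ = (M * C) ^ 2 := by ring
  have h3 : (∑ p : Fin K × Ω, ‖X p.1 p.2‖ * ‖D p.1 (Y p.2)‖) ≤ M * C :=
    le_of_sq_le_sq h2 (by positivity)
  exact h1.trans h3

end Pool.Agent.K6.H39.CT
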