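import Pool.Agent.K6.H39.CT.Stm

/-!
# Piece HALL: the marriage theorem in complementary form
-/

set_option autoImplicit false

namespace Pool.Agent.K6.H39.CT

open Finset

theorem t_HALL : S_HALL := by
  classical
  intro n R h
  by_contra hc
  push Not at hc
  apply h
  let t : Fin n → Finset (Fin n) := fun i => univ.filter fun k => R i k
  have hall : ∀ s : Finset (Fin n), s.card ≤ (s.biUnion t).card := by
    intro s
    by_contra hs
    push Not at hs
    have hle : (s.biUnion t).card ≤ n := by
      simpa using Finset.card_le_univ (s.biUnion t)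
    have hcc : ((s.biUnion t)ᶜ).card = n - (s.biUnion t).card := by
      rw [Finset.card_compl, Fintype.card_fin]
    obtain ⟨i, hi, k, hk, hR⟩ := hc s ((s.biUnion t)ᶜ) (by rw [hcc]; omega)
    rw [Finset.mem_compl, Finset.mem_biUnion] at hk
    exact hk ⟨i, hi, Finset.mem_filter.2 ⟨Finset.mem_univ _, hR⟩⟩
  obtain ⟨f, hf, hft⟩ := (Finset.all_card_le_biUnion_card_iff_exists_injective t).1 hall
  exact ⟨Equiv.ofBijective f (Finite.injective_iff_bijective.1 hf), fun j =>
    (Finset.mem_filter.1 (hft j)).2⟩

end Pool.Agent.K6.H39.CT
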