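import Pool.Agent.K6.H39.CT.Stm

set_option autoImplicit false

namespace Pool.Agent.K6.H39.CT

open Finset Module

namespace INT

/-- the span of the vectors of a basis with indices in `S` -/
noncomputable def V {n : ℕ} (u : OrthonormalBasis (Fin n) ℂ (E n)) (S : Finset (Fin n)) :
    Submodule ℂ (E n) :=
  Submodule.span ℂ (Set.range fun i : S => u i)

theorem finrank_V {n : ℕ} (u : OrthonormalBasis (Fin n) ℂ (E n)) (S : Finset (Fin n)) :
    finrank ℂ (V u S) = S.card := by
  have h : LinearIndependent ℂ (fun i : S => u i) :=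
    u.orthonormal.linearIndependent.comp _ Subtype.val_injective
  unfold V
  rw [finrank_span_eq_card h, Fintype.card_coe]

theorem inner_zero {n : ℕ} (u : OrthonormalBasis (Fin n) ℂ (E n)) (S : Finset (Fin n)) {z : E n}
    (hz : z ∈ V u S) {i : Fin n} (hi : i ∉ S) : inner ℂ (u i) z = 0 := by
  unfold V at hz
  induction hz using Submodule.span_induction with
  | mem x hx =>
    obtain ⟨j, rfl⟩ := hx
    have : i ≠ j := fun h => hi (h ▸ j.2)
    simp [this]
  | zero => exact inner_zero_right _
  | add x y _ _ hx hy => rw [inner_add_right, hx, hy, add_zero]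
  | smul c x _ hx => rw [inner_smul_right, hx, mul_zero]

end INT

open INT in
theorem t_INT : S_INT := by
  intro n u v S T hST
  have hdim : finrank ℂ (E n) = n := by simp [E]
  have h1 := Submodule.finrank_sup_add_finrank_inf_eq (V u S) (V v T)
  rw [finrank_V, finrank_V] at h1
  have h2 : finrank ℂ ↥(V u S ⊔ V v T) ≤ n := by
    have := Submodule.finrank_le (V u S ⊔ V v T)
    rwa [hdim] at this
  have h3 : V u S ⊓ V v T ≠ ⊥ := by
    intro h
    rw [h, finrank_bot] at h1
    omega
  obtain ⟨y, hy, hy0⟩ := Submodule.exists_mem_ne_zero_of_ne_bot h3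
  obtain ⟨z, hz, hz1⟩ : ∃ z ∈ V u S ⊓ V v T, ‖z‖ = 1 := by
    refine ⟨((‖y‖⁻¹ : ℝ) : ℂ) • y, Submodule.smul_mem _ _ hy, ?_⟩
    rw [norm_smul, Complex.norm_real, norm_inv, norm_norm]
    exact inv_mul_cancel₀ (norm_ne_zero_iff.2 hy0)
  refine ⟨fun i => inner ℂ (u i) z, fun k => inner ℂ (v k) z, fun i hi => inner_zero u S hz.1 hi,
    fun k hk => inner_zero v T hz.2 hk, ?_, ?_, ?_⟩
  · rw [u.sum_sq_norm_inner_right z, hz1, one_pow]
  · rw [v.sum_sq_norm_inner_right z, hz1, one_pow]
  · calc ∑ i, ∑ k, (starRingEnd ℂ) (inner ℂ (u i) z) * inner ℂ (v k) z * inner ℂ (u i) (v k)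
        = ∑ k, (∑ i, inner ℂ z (u i) * inner ℂ (u i) (v k)) * inner ℂ (v k) z := by
          rw [Finset.sum_comm]
          refine Finset.sum_congr rfl fun k _ => ?_
          rw [Finset.sum_mul]
          refine Finset.sum_congr rfl fun i _ => ?_
          rw [inner_conj_symm]
          ring
      _ = ∑ k, inner ℂ z (v k) * inner ℂ (v k) z := by
          refine Finset.sum_congr rfl fun k _ => ?_
          rw [u.sum_inner_mul_inner]
      _ = inner ℂ z z := v.sum_inner_mul_inner z z
      _ = 1 := by rw [inner_self_eq_norm_sq_to_K, hz1]; simp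

end Pool.Agent.K6.H39.CT
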