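import Pool.Agent.K6.H39.CT.Stm

/-!
# Piece PROD (helper84): products of Gram matrices are Gram matrices
-/

set_option autoImplicit false

namespace Pool.Agent.K6.H39.CT

open Finset

namespace PROD

theorem parseval {H : Type} [NormedAddCommGroup H] [InnerProductSpace ℝ H] (W : Submodule ℝ H)
    {d : ℕ} (w : OrthonormalBasis (Fin d) ℝ W) {a b : H} (ha : a ∈ W) (hb : b ∈ W) :
    ∑ j, inner ℝ (w j : H) a * inner ℝ (w j : H) b = inner ℝ a b := by
  have h := w.sum_inner_mul_inner (⟨a, ha⟩ : W) (⟨b, hb⟩ : W)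
  rw [Submodule.coe_inner] at h
  rw [← h]
  refine Finset.sum_congr rfl fun j _ => ?_
  rw [Submodule.coe_inner, Submodule.coe_inner, real_inner_comm]

theorem product {H : Type} [NormedAddCommGroup H] [InnerProductSpace ℝ H] (W : Submodule ℝ H)
    {d K : ℕ} (w : OrthonormalBasis (Fin d) ℝ W) (a b : Fin K → H) (ha : ∀ L, a L ∈ W)
    (hb : ∀ L, b L ∈ W) :
    ∑ ω : Fin K → Fin d, (∏ L, inner ℝ (w (ω L) : H) (a L)) * (∏ L, inner ℝ (w (ω L) : H) (b L))
      = ∏ L, inner ℝ (a L) (b L) := by
  have h1 : ∀ L, inner ℝ (a L) (b L) =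
      ∑ j : Fin d, inner ℝ (w j : H) (a L) * inner ℝ (w j : H) (b L) := fun L =>
    (parseval W w (ha L) (hb L)).symm
  simp only [h1]
  rw [Finset.prod_univ_sum, Fintype.piFinset_univ]
  refine Finset.sum_congr rfl fun ω _ => ?_
  rw [Finset.prod_mul_distrib]

theorem split {H : Type} [NormedAddCommGroup H] [InnerProductSpace ℝ H] {K : ℕ} (J : Fin K)
    (x z y y' : Fin K → H) (h : ∀ L, L ≠ J → y' L = y L) :
    ∏ L, inner ℝ (if L = J then z L else x L) (y' L) =
      inner ℝ (z J) (y' J) * ∏ L ∈ univ.erase J, inner ℝ (x L) (y L) := by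
  rw [← Finset.mul_prod_erase univ _ (mem_univ J), if_pos rfl]
  congr 1
  refine Finset.prod_congr rfl fun L hL => ?_
  have hL' : L ≠ J := (mem_erase.mp hL).1
  rw [if_neg hL', h L hL']

end PROD

theorem t_PROD : S_PROD := by
  intro H _ _ K n x x' y
  let W : Submodule ℝ H := Submodule.span ℝ
    ((Set.range fun p : Fin K × Fin n => x p.1 p.2) ∪
      ((Set.range fun p : Fin K × Fin n => x' p.1 p.2) ∪
        (Set.range fun p : Fin K × Fin n => y p.1 p.2)))
  have hfin : FiniteDimensional ℝ W := FiniteDimensional.span_of_finite ℝ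
    ((Set.finite_range _).union ((Set.finite_range _).union (Set.finite_range _)))
  have hx : ∀ L i, x L i ∈ W := fun L i => Submodule.subset_span (Or.inl ⟨(L, i), rfl⟩)
  have hx' : ∀ L i, x' L i ∈ W := fun L i =>
    Submodule.subset_span (Or.inr (Or.inl ⟨(L, i), rfl⟩))
  have hy : ∀ L i, y L i ∈ W := fun L i =>
    Submodule.subset_span (Or.inr (Or.inr ⟨(L, i), rfl⟩))
  let w := stdOrthonormalBasis ℝ W
  have hxx : ∀ J i L, (if L = J then x' L i else x L i) ∈ W := by
    intro J i L
    split_ifs
    · exact hx' L i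
    · exact hx L i
  refine ⟨Fin K → Fin (Module.finrank ℝ W), inferInstance,
    fun J i ω => ∏ L, inner ℝ (w (ω L) : H) (if L = J then x' L i else x L i),
    fun k ω => ∏ L, inner ℝ (w (ω L) : H) (y L k), ?_, ?_, ?_⟩
  · intro J i k
    show ∑ ω : Fin K → Fin (Module.finrank ℝ W),
      (∏ L, inner ℝ (w (ω L) : H) (if L = J then x' L i else x L i)) *
        (∏ L, inner ℝ (w (ω L) : H) (y L k)) = _
    rw [PROD.product W w (fun L => if L = J then x' L i else x L i) (fun L => y L k)
      (hxx J i) (fun L => hy L k)]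
    exact PROD.split J (fun L => x L i) (fun L => x' L i) (fun L => y L k) (fun L => y L k)
      (fun _ _ => rfl)
  · intro J i
    have h1 := PROD.product W w (fun L => if L = J then x' L i else x L i)
      (fun L => if L = J then x' L i else x L i) (hxx J i) (hxx J i)
    have h2 := PROD.split J (fun L => x L i) (fun L => x' L i) (fun L => x L i)
      (fun L => if L = J then x' L i else x L i) (fun L hL => if_neg hL)
    rw [h2] at h1
    simp only [if_true] at h1
    rw [← h1]
    refine Finset.sum_congr rfl fun ω _ => ?_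
    rw [sq]
  · intro k
    have h1 := PROD.product W w (fun L => y L k) (fun L => y L k) (fun L => hy L k)
      (fun L => hy L k)
    rw [← h1]
    refine Finset.sum_congr rfl fun ω _ => ?_
    rw [sq]

end Pool.Agent.K6.H39.CT
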